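import Pool.Agent.W502.POT.Defs
import Pool.Agent.W899.POT.Red

/-!
# Permanent on top for 4x4 matrices: from the averaged weighted forms to the forms
-/

set_option autoImplicit false

namespace Pool.Agent.W513.POT

open Matrix Pool.Agent.W502.POT Pool.Agent.W899.POT
open scoped ComplexOrder

/-- the weight -/
noncomputable def qq (A : Matrix (Fin 4) (Fin 4) ℂ) : ℂ :=
  (A 0 0 * A 1 1 + A 0 1 * A 1 0) * (A 2 2 * A 3 3 + A 2 3 * A 3 2)

/-- the general form -/
noncomputable def FF {I : Type} [Fintype I] (α : Equiv.Perm (Fin 4) → I → I)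
    (w : Equiv.Perm (Fin 4) → ℂ) (A : Matrix (Fin 4) (Fin 4) ℂ) (c : I → ℂ) : ℂ :=
  ∑ σ : Equiv.Perm (Fin 4), mon A σ * ∑ i, star (c i) * (c i - w σ * c (α σ i))

lemma mon_conj (A : Matrix (Fin 4) (Fin 4) ℂ) (g σ : Equiv.Perm (Fin 4)) :
    mon (A.submatrix g g) σ = mon A (g * σ * g⁻¹) := by
  unfold mon
  refine Fintype.prod_equiv g _ _ fun i => ?_
  simp [Matrix.submatrix_apply]

lemma FF_conj {I : Type} [Fintype I] (α : Equiv.Perm (Fin 4) → I → I)
    (hm : ∀ g s i, α (g * s) i = α g (α s i)) (h1 : ∀ i, α 1 i = i)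
    (w : Equiv.Perm (Fin 4) → ℂ) (hw : ∀ g σ, w (g * σ * g⁻¹) = w σ)
    (A : Matrix (Fin 4) (Fin 4) ℂ) (c : I → ℂ) (g : Equiv.Perm (Fin 4)) :
    FF α w (A.submatrix g g) (fun i => c (α g i)) = FF α w A c := by
  unfold FF
  refine Fintype.sum_equiv (MulAut.conj g).toEquiv _ _ fun σ => ?_
  have hg : (MulAut.conj g).toEquiv σ = g * σ * g⁻¹ := rfl
  rw [hg, mon_conj, hw]
  congr 1
  have e : I ≃ I := ⟨α g, α g⁻¹, fun i => by rw [← hm, inv_mul_cancel, h1],
    fun i => by rw [← hm, mul_inv_cancel, h1]⟩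
  refine Fintype.sum_equiv ⟨α g, α g⁻¹, fun i => by rw [← hm, inv_mul_cancel, h1],
    fun i => by rw [← hm, mul_inv_cancel, h1]⟩ _ _ fun i => ?_
  show star (c (α g i)) * (c (α g i) - w σ * c (α g (α σ i))) =
    star (c (α g i)) * (c (α g i) - w σ * c (α (g * σ * g⁻¹) (α g i)))
  rw [← hm, ← hm, inv_mul_cancel_right]

lemma qq_nonneg {A : Matrix (Fin 4) (Fin 4) ℂ} (hA : A.PosSemidef) : 0 ≤ qq A := by
  have hd : ∀ i, 0 ≤ A i i := fun i => hA.diag_nonneg
  have h : ∀ i j, 0 ≤ A i j * A j i := by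
    intro i j
    have : A j i = star (A i j) := (hA.isHermitian.apply j i).symm
    rw [this]
    exact mul_star_self_nonneg _
  unfold qq
  exact mul_nonneg (add_nonneg (mul_nonneg (hd 0) (hd 1)) (h 0 1))
    (add_nonneg (mul_nonneg (hd 2) (hd 3)) (h 2 3))

lemma qq_pos {A : Matrix (Fin 4) (Fin 4) ℂ} (hA : A.PosSemidef) (hp : ∀ i, 0 < A i i) :
    0 < qq A := by
  have h : ∀ i j, 0 ≤ A i j * A j i := by
    intro i j
    have : A j i = star (A i j) := (hA.isHermitian.apply j i).symm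
    rw [this]
    exact mul_star_self_nonneg _
  unfold qq
  exact mul_pos (add_pos_of_pos_of_nonneg (mul_pos (hp 0) (hp 1)) (h 0 1))
    (add_pos_of_pos_of_nonneg (mul_pos (hp 2) (hp 3)) (h 2 3))

lemma row_zero {A : Matrix (Fin 4) (Fin 4) ℂ} (hA : A.PosSemidef) {i : Fin 4} (h0 : A i i = 0)
    (j : Fin 4) : A i j = 0 := by
  have h1 : (A.submatrix ![i, j] ![i, j]).PosSemidef := hA.submatrix _
  have h2 := h1.det_nonneg
  rw [Matrix.det_fin_two] at h2
  simp only [Matrix.submatrix_apply, Matrix.cons_val_zero, Matrix.cons_val_one, h0,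
    zero_mul, zero_sub] at h2
  have h3 : A j i = star (A i j) := (hA.isHermitian.apply j i).symm
  rw [h3] at h2
  have h4 : 0 ≤ A i j * star (A i j) := mul_star_self_nonneg _
  have h5 : A i j * star (A i j) = 0 := le_antisymm (by simpa using h2) h4
  rcases mul_eq_zero.mp h5 with h | h
  · exact h
  · simpa using h

lemma FF_zero {I : Type} [Fintype I] (α : Equiv.Perm (Fin 4) → I → I)
    (w : Equiv.Perm (Fin 4) → ℂ) {A : Matrix (Fin 4) (Fin 4) ℂ} (hA : A.PosSemidef)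
    {i : Fin 4} (h0 : A i i = 0) (c : I → ℂ) : FF α w A c = 0 := by
  unfold FF
  refine Finset.sum_eq_zero fun σ _ => ?_
  have : mon A σ = 0 := by
    unfold mon
    exact Finset.prod_eq_zero (Finset.mem_univ i) (row_zero hA h0 _)
  rw [this, zero_mul]

lemma general {I : Type} [Fintype I] (α : Equiv.Perm (Fin 4) → I → I)
    (hm : ∀ g s i, α (g * s) i = α g (α s i)) (h1 : ∀ i, α 1 i = i)
    (w : Equiv.Perm (Fin 4) → ℂ) (hw : ∀ g σ, w (g * σ * g⁻¹) = w σ)
    (A : Matrix (Fin 4) (Fin 4) ℂ) (hA : A.PosSemidef) (c : I → ℂ)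
    (h : 0 ≤ ∑ g : Equiv.Perm (Fin 4),
      (qq (A.submatrix g g) * FF α w (A.submatrix g g) (fun i => c (α g i))).re) :
    0 ≤ (FF α w A c).re := by
  by_cases h0 : ∃ i, A i i = 0
  · obtain ⟨i, hi⟩ := h0
    rw [FF_zero α w hA hi c]
    simp
  · push Not at h0
    have hp : ∀ i, 0 < A i i := fun i => lt_of_le_of_ne hA.diag_nonneg (h0 i).symm
    have e : ∀ g : Equiv.Perm (Fin 4),
        (qq (A.submatrix g g) * FF α w (A.submatrix g g) (fun i => c (α g i))).re =
          (qq (A.submatrix g g)).re * (FF α w A c).re := by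
      intro g
      rw [FF_conj α hm h1 w hw A c g]
      have h2 : 0 ≤ qq (A.submatrix g g) := qq_nonneg (hA.submatrix _)
      have h3 : (qq (A.submatrix g g)).im = 0 := ((Complex.le_def.mp h2).2).symm
      rw [Complex.mul_re, h3, zero_mul, sub_zero]
    rw [Finset.sum_congr rfl fun g _ => e g, ← Finset.sum_mul] at h
    have hW : 0 < ∑ g : Equiv.Perm (Fin 4), (qq (A.submatrix g g)).re := by
      refine Finset.sum_pos (fun g _ => ?_) ⟨1, Finset.mem_univ _⟩
      have h2 : 0 < qq (A.submatrix g g) := qq_pos (hA.submatrix _) fun i => hp (g i)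
      exact (Complex.lt_def.mp h2).1
    exact nonneg_of_mul_nonneg_right h hW

lemma f31_eq (A : Matrix (Fin 4) (Fin 4) ℂ) (c : Fin 4 → ℂ) :
    f31 A c = FF (fun σ i => σ i) (fun _ => 1) A c := by
  unfold f31 FF
  simp

lemma f211_eq (A : Matrix (Fin 4) (Fin 4) ℂ) (c : Fin 4 → ℂ) :
    f211 A c = FF (fun σ i => σ i) (fun σ => (((Equiv.Perm.sign σ : ℤˣ) : ℤ) : ℂ)) A c := rfl

lemma f22_eq (A : Matrix (Fin 4) (Fin 4) ℂ) (c : Fin 3 → ℂ) :
    f22 A c = FF mact (fun _ => 1) A c := by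
  unfold f22 FF
  simp

theorem fin31 (h : ∀ A : Matrix (Fin 4) (Fin 4) ℂ, A.PosSemidef → ∀ c : Fin 4 → ℂ,
    0 ≤ ∑ g : Equiv.Perm (Fin 4),
      (qq (A.submatrix g g) * f31 (A.submatrix g g) (fun i => c (g i))).re) : P31 := by
  intro A hA c
  rw [f31_eq]
  refine general (fun σ i => σ i) (fun _ _ _ => rfl) (fun _ => rfl) _ (fun _ _ => rfl) A hA c ?_
  have h1 := h A hA c
  simpa only [f31_eq] using h1

theorem fin211 (h : ∀ A : Matrix (Fin 4) (Fin 4) ℂ, A.PosSemidef → ∀ c : Fin 4 → ℂ,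
    0 ≤ ∑ g : Equiv.Perm (Fin 4),
      (qq (A.submatrix g g) * f211 (A.submatrix g g) (fun i => c (g i))).re) : P211 := by
  intro A hA c
  rw [f211_eq]
  refine general (fun σ i => σ i) (fun _ _ _ => rfl) (fun _ => rfl) _ (fun g σ => ?_) A hA c ?_
  · have h2 : Equiv.Perm.sign (g * σ * g⁻¹) = Equiv.Perm.sign σ := by
      rw [map_mul, map_mul, mul_comm (Equiv.Perm.sign g) (Equiv.Perm.sign σ), mul_assoc,
        ← map_mul, mul_inv_cancel, map_one, mul_one]
    simp only [h2]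
  · have h1 := h A hA c
    simpa only [f211_eq] using h1

theorem fin22 (h : ∀ A : Matrix (Fin 4) (Fin 4) ℂ, A.PosSemidef → ∀ c : Fin 3 → ℂ,
    0 ≤ ∑ g : Equiv.Perm (Fin 4),
      (qq (A.submatrix g g) * f22 (A.submatrix g g) (fun m => c (mact g m))).re) : P22 := by
  intro A hA c
  rw [f22_eq]
  refine general mact mact_mul mact_one _ (fun _ _ => rfl) A hA c ?_
  have h1 := h A hA c
  simpa only [f22_eq] using h1

end Pool.Agent.W513.POT
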